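import Pool.Agent.LibCycU.P9
import Pool.Agent.LibNF95.E3
import Pool.Agent.LibNF95.X4
import Pool.Agent.LibNF95.Z8
import Pool.Agent.LibNF95.Z9
import Pool.Agent.LibNF95.K1

/-!
# The triples `(p, p₁, e)` for which `D₀` or `D₁` is skew Hadamard or of Paley type

`N` is the prime `p₁` of the problem, `f` the order of `p` modulo `N`, `e f = N - 1`.
`DD N Q ω 0` is `D₀` and `DD N Q ω N` is `D₁`.
-/

set_option autoImplicit false

open Finset

namespace Pool.Agent.Results.MP_bc5690_co.FullSet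

open Pool.Agent.CycU

/-- `(p, N, e)` is one of the triples asked for: `p`, `N` are distinct odd primes, `e` is the index
of `⟨p⟩` modulo `N`, and for some field `F` with `p ^ ((N - 1) / e)` elements and some primitive
element `ω` of `F` one of `D₀`, `D₁` is admissible. -/
def InSet (p N e : ℕ) : Prop :=
  p.Prime ∧ N.Prime ∧ p ≠ 2 ∧ N ≠ 2 ∧ p ≠ N ∧ e * orderOf (p : ZMod N) = N - 1 ∧
    ∃ (F : Type) (_ : Field F) (_ : Fintype F) (Q : Subgroup (ZMod (2 * N))ˣ) (ω : F),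
      Fintype.card F = p ^ ((N - 1) / e) ∧ Q.index = 2 ∧
      IsPrimitiveRoot ω (p ^ ((N - 1) / e) - 1) ∧
      (Admissible (DD N Q ω 0) ∨ Admissible (DD N Q ω (N : ZMod (2 * N))))

/-- The exponent of `p` in `N + 1` if `N ≡ 3 mod 4` and in `N - 1` otherwise. -/
def vexp (p N : ℕ) : ℕ := padicValNat p (if N % 4 = 3 then N + 1 else N - 1)

/-- The criterion. Here `L p N f s` is the sum of the residues in `[0, N - 1]` of
`s, p s, …, p ^ (f - 1) s`. -/
def Criterion (p N f : ℕ) [Fact N.Prime] : Prop :=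
  Even f ∨ (Odd f ∧ (N % 8 = 3 ∨ N % 8 = 5) ∧ ∃ ε : ℤ, (ε = 1 ∨ ε = -1) ∧
    ∀ s : ZMod N, s ≠ 0 →
      (if quadraticChar (ZMod N) s = ε then -((vexp p N * N : ℕ) : ℤ) else 0) ≤
        (L p N f (2 * s) : ℤ) - (L p N f s : ℤ))

/-- `b` is the least of the numbers `L p N f s / N`, `s ≠ 0`. -/
def IsMinB (p N f b : ℕ) : Prop :=
  (∀ s : ZMod N, s ≠ 0 → N * b ≤ L p N f s) ∧ ∃ s : ZMod N, s ≠ 0 ∧ L p N f s = N * b

private theorem criterion_iff {p N f : ℕ} [Fact N.Prime] (hN : N ≠ 2) :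
    Criterion p N f ↔
      (Even f ∨ (Odd f ∧ (N % 8 = 3 ∨ N % 8 = 5) ∧ (Crit p N f 1 ∨ Crit p N f (-1)))) := by
  have key : ∀ ε : ℤ, (∀ s : ZMod N, s ≠ 0 →
      (if quadraticChar (ZMod N) s = ε then -((vexp p N * N : ℕ) : ℤ) else 0) ≤
        (L p N f (2 * s) : ℤ) - (L p N f s : ℤ)) ↔ Crit p N f ε := by
    intro ε
    unfold Crit
    have : ((vexp p N * N : ℕ) : ℤ) = (wN p N : ℤ) * N := by
      push_cast; rfl
    simp only [this, W_eq_L hN]
  unfold Criterion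
  constructor
  · rintro (h | ⟨h1, h2, ε, hε, h3⟩)
    · exact Or.inl h
    · refine Or.inr ⟨h1, h2, ?_⟩
      rcases hε with rfl | rfl
      · exact Or.inl ((key _).1 h3)
      · exact Or.inr ((key _).1 h3)
  · rintro (h | ⟨h1, h2, h3 | h3⟩)
    · exact Or.inl h
    · exact Or.inr ⟨h1, h2, 1, Or.inl rfl, (key _).2 h3⟩
    · exact Or.inr ⟨h1, h2, -1, Or.inr rfl, (key _).2 h3⟩

/-- the criterion for every index -/
private theorem core (p N e f : ℕ) [Fact p.Prime] [Fact N.Prime] (hp : p ≠ 2) (hN : N ≠ 2)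
    (hpN : p ≠ N) (hf : f = orderOf (p : ZMod N)) (he : e * f = N - 1) :
    (InSet p N e ↔ Criterion p N f) ∧
    (∀ (F : Type) [Field F] [Fintype F] (Q : Subgroup (ZMod (2 * N))ˣ) (ω : F),
      Fintype.card F = p ^ f → Q.index = 2 → IsPrimitiveRoot ω (p ^ f - 1) →
        ((Admissible (DD N Q ω 0) ∨ Admissible (DD N Q ω (N : ZMod (2 * N)))) ↔
          Criterion p N f)) ∧
    (Odd e ∨ 8 ∣ e → (Criterion p N f ↔ Even f)) ∧
    (Odd f → Criterion p N f → ∃ m w : ℕ, Odd m ∧ ¬ p ∣ m ∧ 2 * m ≤ e ∧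
      (if N % 4 = 3 then N + 1 else N - 1) = 4 * m * p ^ w) ∧
    (e = 2 → Odd f →
      (Criterion p N f ↔ ∃ b : ℕ, IsMinB p N f b ∧ N + 1 = 4 * p ^ (f - 2 * b))) ∧
    (e = 4 → Odd f →
      (Criterion p N f ↔ ∃ b : ℕ, IsMinB p N f b ∧ N = 4 * p ^ (f - 2 * b) + 1) ∧
      (Criterion p N f → ∃ A : ℤ, A % 4 = 3 ∧ (N : ℤ) = A ^ 2 + 4)) := by
  classical
  have hpp := (Fact.out : p.Prime)
  have hNN := (Fact.out : N.Prime)
  have hN3 : 2 < N := lt_of_le_of_ne hNN.two_le (Ne.symm hN)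
  have hNo : N % 2 = 1 := (Nat.Prime.eq_two_or_odd hNN).resolve_left hN
  have hf0 : f ≠ 0 := by rintro rfl; omega
  have he0 : 0 < e := by
    rcases Nat.eq_zero_or_pos e with h | h
    · subst h; omega
    · exact h
  have hfe : (N - 1) / e = f := by rw [← he, Nat.mul_div_cancel_left f he0]
  -- the criterion for every field and every primitive element
  have hall : ∀ (F : Type) [Field F] [Fintype F] (Q : Subgroup (ZMod (2 * N))ˣ) (ω : F),
      Fintype.card F = p ^ f → Q.index = 2 → IsPrimitiveRoot ω (p ^ f - 1) →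
        ((Admissible (DD N Q ω 0) ∨ Admissible (DD N Q ω (N : ZMod (2 * N)))) ↔
          Criterion p N f) := by
    intro F _ _ Q ω hF hQ hω
    rw [criterion_iff hN]
    exact main_crit hp hN hpN hf hF Q hQ hω
  -- a field and a primitive element
  let _ : Fintype (GaloisField p f) := Fintype.ofFinite _
  have hF : Fintype.card (GaloisField p f) = p ^ f := by
    rw [← Nat.card_eq_fintype_card]
    exact GaloisField.card p f hf0
  obtain ⟨ω, hω⟩ := exists_prim (GaloisField p f)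
  rw [hF] at hω
  obtain ⟨Q, hQ⟩ := exists_Q hN
  have hne1 : Odd f → (Admissible (DD N Q ω 0) ∨ Admissible (DD N Q ω (N : ZMod (2 * N)))) →
      f ≠ 1 := by
    intro hfo hA hf1
    have hpne : NeZero ((p : ℕ) : PadicAlgCl p) := ⟨by exact_mod_cast hpp.ne_zero⟩
    obtain ⟨ζ, hζ⟩ := HasEnoughRootsOfUnity.exists_primitiveRoot (PadicAlgCl p) p
    have hω' : IsPrimitiveRoot ω (Fintype.card (GaloisField p f) - 1) := by
      rw [hF]; exact hω
    obtain ⟨_, hNp, _⟩ := adm_data hp hN hpN hf hfo hF Q hQ hω' hζ hA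
    apply hNp
    rw [← ZMod.natCast_eq_zero_iff, Nat.cast_sub hpp.one_le]
    have : (p : ZMod N) = 1 := orderOf_eq_one_iff.1 (by rw [← hf, hf1])
    rw [this]; simp
  refine ⟨?_, hall, ?_, ?_, ?_, ?_⟩
  · constructor
    · rintro ⟨_, _, _, _, _, _, F, _, _, Q', ω', hF', hQ', hω', hA⟩
      rw [hfe] at hF' hω'
      exact (hall F Q' ω' hF' hQ' hω').1 hA
    · intro hC
      refine ⟨hpp, hNN, hp, hN, hpN, by rw [← hf, he], GaloisField p f, inferInstance,
        inferInstance, Q, ω, ?_, hQ, ?_, (hall _ Q ω hF hQ hω).2 hC⟩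
      · rw [hfe, hF]
      · rw [hfe]; exact hω
  · intro hcase
    constructor
    · rintro (h | ⟨h1, h2, _⟩)
      · exact h
      · exfalso
        rcases hcase with h | h
        · have h3 := Nat.odd_mul.2 ⟨h, h1⟩
          rw [he] at h3
          obtain ⟨k, hk⟩ := h3
          omega
        · obtain ⟨k, hk⟩ := h
          rw [hk, mul_assoc] at he
          omega
    · intro h; exact Or.inl h
  · intro hfo hC
    have hA := (hall _ Q ω hF hQ hω).2 hC
    have hpne : NeZero ((p : ℕ) : PadicAlgCl p) := ⟨by exact_mod_cast hpp.ne_zero⟩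
    obtain ⟨ζ, hζ⟩ := HasEnoughRootsOfUnity.exists_primitiveRoot (PadicAlgCl p) p
    have hω' : IsPrimitiveRoot ω (Fintype.card (GaloisField p f) - 1) := by
      rw [hF]; exact hω
    obtain ⟨hNd, hNp, h2, s, hs, hm⟩ := adm_data hp hN hpN hf hfo hF Q hQ hω' hζ hA
    exact gen_nec hp hN hpN hF hfo hf he hNp hω' hNd (norm_p_alg p) hζ hs h2 hm
  · intro he2 hfo
    subst he2
    rw [← hall _ Q ω hF hQ hω]
    constructor
    · intro hA
      have hf1 : f ≠ 1 := hne1 hfo hA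
      obtain ⟨b, hb⟩ := exists_B hf hf1
      exact ⟨b, hb, (adm_e2 hp hN hpN hf hfo he hF Q hQ hω hb).1 hA⟩
    · rintro ⟨b, hb, h⟩
      exact (adm_e2 hp hN hpN hf hfo he hF Q hQ hω hb).2 h
  · intro he4 hfo
    subst he4
    rw [← hall _ Q ω hF hQ hω]
    have hfwd : (Admissible (DD N Q ω 0) ∨ Admissible (DD N Q ω (N : ZMod (2 * N)))) →
        ∃ b : ℕ, IsB p N f b ∧ N = 4 * p ^ (f - 2 * b) + 1 := by
      intro hA
      have hf1 : f ≠ 1 := hne1 hfo hA
      obtain ⟨b, hb⟩ := exists_B hf hf1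
      exact ⟨b, hb, (adm_e4 hp hN hpN hf hfo he hF Q hQ hω hb).1 hA⟩
    refine ⟨⟨hfwd, ?_⟩, ?_⟩
    · rintro ⟨b, hb, h⟩
      exact (adm_e4 hp hN hpN hf hfo he hF Q hQ hω hb).2 h
    · intro hA
      obtain ⟨b, hb, h⟩ := hfwd hA
      obtain ⟨⟨A, hA2⟩, _⟩ := e4_back hp hN hpN hf hfo he hb.1 hb.2 h
      have hodd : Odd A := by
        rcases Int.even_or_odd A with h | h
        · exfalso
          obtain ⟨k, hk⟩ := h
          have : (N : ℤ) = 4 * (k ^ 2 + 1) := by rw [hA2, hk]; ring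
          omega
        · exact h
      rcases A_mod_four hodd with h | h
      · exact ⟨A, h, hA2⟩
      · exact ⟨-A, h, by rw [hA2]; ring⟩

private theorem crit_of {p N f : ℕ} [Fact N.Prime] (hN : N ≠ 2) (hfo : Odd f) (h : Criterion p N f) :
    (N % 8 = 3 ∨ N % 8 = 5) ∧ (Crit p N f 1 ∨ Crit p N f (-1)) := by
  rcases (criterion_iff hN).1 h with h1 | ⟨_, h2, h3⟩
  · exact absurd h1 (Nat.not_even_iff_odd.2 hfo)
  · exact ⟨h2, h3⟩

private theorem cast_ne {p N : ℕ} [Fact p.Prime] [Fact N.Prime] (hpN : p ≠ N) : (p : ZMod N) ≠ 0 := by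
  have hpp := (Fact.out : p.Prime)
  have hNN := (Fact.out : N.Prime)
  intro h
  have h1 := (ZMod.natCast_eq_zero_iff p N).1 h
  exact hpN ((Nat.prime_dvd_prime_iff_eq hNN hpp).1 h1).symm

/-- the triples of index 2 or 4 -/
private theorem known {p N e f b : ℕ} [Fact p.Prime] [Fact N.Prime] (hp : p ≠ 2) (hN : N ≠ 2)
    (hpN : p ≠ N) (hf : orderOf (p : ZMod N) = f) (he : e * f = N - 1) (hfo : Odd f)
    (hb : IsB p N f b) (h : (e = 2 ∧ N + 1 = 4 * p ^ (f - 2 * b)) ∨ (e = 4 ∧ N = 4 * p ^ (f - 2 * b) + 1)) :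
    InSet p N e := by
  have hc := core p N e f hp hN hpN hf.symm he
  apply hc.1.2
  rcases h with ⟨h1, h2⟩ | ⟨h1, h2⟩
  · exact (hc.2.2.2.2.1 h1 hfo).2 ⟨b, hb, h2⟩
  · exact (hc.2.2.2.2.2 h1 hfo).1.2 ⟨b, hb, h2⟩

/-- **Main theorem.** -/
theorem result :
    (∀ (p N e f : ℕ) [Fact p.Prime] [Fact N.Prime], p ≠ 2 → N ≠ 2 → p ≠ N →
      f = orderOf (p : ZMod N) → e * f = N - 1 →
      (InSet p N e ↔ Criterion p N f) ∧
      (∀ (F : Type) [Field F] [Fintype F] (Q : Subgroup (ZMod (2 * N))ˣ) (ω : F),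
        Fintype.card F = p ^ f → Q.index = 2 → IsPrimitiveRoot ω (p ^ f - 1) →
          ((Admissible (DD N Q ω 0) ∨ Admissible (DD N Q ω (N : ZMod (2 * N)))) ↔
            Criterion p N f)) ∧
      (Odd e ∨ 8 ∣ e → (Criterion p N f ↔ Even f)) ∧
      (Odd f → Criterion p N f → p ≤ N + 1 ∧ (e ≠ 2 → N < 10 ^ 210) ∧
        ∃ m w : ℕ, Odd m ∧ ¬ p ∣ m ∧ 2 * m ≤ e ∧
          (if N % 4 = 3 then N + 1 else N - 1) = 4 * m * p ^ w) ∧
      (e = 2 → Odd f →
        (Criterion p N f ↔ ∃ b : ℕ, IsMinB p N f b ∧ N + 1 = 4 * p ^ (f - 2 * b)))) ∧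
    {t : ℕ × ℕ × ℕ | InSet t.1 t.2.1 t.2.2 ∧ Odd ((t.2.1 - 1) / t.2.2)}.Finite ∧
    (∀ p N : ℕ, InSet p N 4 ∧ Odd ((N - 1) / 4) ↔
      (p = 3 ∧ N = 13) ∨ (p = 7 ∧ N = 29) ∨ (p = 13 ∧ N = 53)) ∧
    (InSet 3 11 2 ∧ InSet 5 19 2 ∧ InSet 17 67 2 ∧ InSet 3 107 2 ∧ InSet 41 163 2 ∧
      InSet 5 499 2) := by
  classical
  obtain ⟨N₀, hN₀⟩ := LibNF95.bounded
  have data : ∀ {p N e : ℕ}, InSet p N e → ∃ (_ : Fact p.Prime) (_ : Fact N.Prime), p ≠ 2 ∧ N ≠ 2 ∧
      p ≠ N ∧ e * orderOf (p : ZMod N) = N - 1 ∧ (N - 1) / e = orderOf (p : ZMod N) ∧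
      Criterion p N (orderOf (p : ZMod N)) := by
    intro p N e h
    have h' := h
    obtain ⟨hp, hN, hp2, hN2, hpN, he, _⟩ := h'
    have i1 : Fact p.Prime := ⟨hp⟩
    have i2 : Fact N.Prime := ⟨hN⟩
    have he0 : 0 < e := by
      rcases Nat.eq_zero_or_pos e with h0 | h0
      · have := hN.two_le
        rw [h0, zero_mul] at he
        omega
      · exact h0
    refine ⟨i1, i2, hp2, hN2, hpN, he, ?_, (core p N e _ hp2 hN2 hpN rfl he).1.1 h⟩
    rw [← he, Nat.mul_div_cancel_left _ he0]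
  refine ⟨?_, ?_, ?_, ?_⟩
  · intro p N e f _ _ hp hN hpN hf he
    obtain ⟨c1, c2, c3, c4, c5, _⟩ := core p N e f hp hN hpN hf he
    refine ⟨c1, c2, c3, ?_, c5⟩
    intro hfo hC
    obtain ⟨h8, hcr⟩ := crit_of hN hfo hC
    refine ⟨(hN₀ p N f hN (cast_ne hpN) hf hfo h8 hcr).2, ?_, c4 hfo hC⟩
    intro he2
    refine LibNF95.bounded_explicit p N f hN (cast_ne hpN) hf hfo h8 ?_ hcr
    intro h2
    apply he2
    have hf0 : 0 < f := hfo.pos
    have : e * f = 2 * f := by rw [he, h2]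
    exact Nat.eq_of_mul_eq_mul_right hf0 this
  · refine (Finset.finite_toSet ((Finset.range (N₀ + 2)) ×ˢ ((Finset.range (N₀ + 1)) ×ˢ
      (Finset.range (N₀ + 1))))).subset ?_
    rintro ⟨p, N, e⟩ ⟨h, ho⟩
    obtain ⟨i1, i2, hp2, hN2, hpN, he, hq, hC⟩ := data h
    simp only at ho
    rw [hq] at ho
    obtain ⟨h8, hcr⟩ := crit_of hN2 ho hC
    obtain ⟨b1, b2⟩ := hN₀ p N _ hN2 (cast_ne hpN) rfl ho h8 hcr
    have he1 : e ≤ N - 1 := by
      rw [← he]
      exact Nat.le_mul_of_pos_right e ho.pos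
    simp only [Finset.coe_product, Finset.coe_range, Set.mem_prod, Set.mem_Iio, Finset.mem_coe,
      Finset.mem_product, Finset.mem_range]
    omega
  · intro p N
    constructor
    · rintro ⟨h, ho⟩
      obtain ⟨i1, i2, hp2, hN2, hpN, he, hq, hC⟩ := data h
      rw [hq] at ho
      obtain ⟨h8, hcr⟩ := crit_of hN2 ho hC
      obtain ⟨_, _, _, _, _, c6⟩ := core p N 4 _ hp2 hN2 hpN rfl he
      obtain ⟨k1, k2⟩ := c6 rfl ho
      obtain ⟨b, hb, hii⟩ := k1.1 hC
      obtain ⟨A, _, hA⟩ := k2 hC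
      exact LibNF95.e4_list hp2 hN2 hpN rfl ho he ⟨A, hA⟩ hb hii hcr
    · have p3 : Fact (Nat.Prime 3) := ⟨by norm_num⟩
      have p7 : Fact (Nat.Prime 7) := ⟨by norm_num⟩
      have p13 : Fact (Nat.Prime 13) := ⟨by norm_num⟩
      have p29 : Fact (Nat.Prime 29) := ⟨by norm_num⟩
      have p53 : Fact (Nat.Prime 53) := ⟨by norm_num⟩
      rintro (⟨rfl, rfl⟩ | ⟨rfl, rfl⟩ | ⟨rfl, rfl⟩)
      · refine ⟨known (f := 3) (b := 1) (by norm_num) (by norm_num) (by norm_num)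
          (by exact_mod_cast LibNF95.isB_13.1) (by norm_num) (by decide) LibNF95.isB_13.2
          (Or.inr ⟨rfl, by norm_num⟩), by decide⟩
      · refine ⟨known (f := 7) (b := 3) (by norm_num) (by norm_num) (by norm_num)
          (by exact_mod_cast LibNF95.isB_29.1) (by norm_num) (by decide) LibNF95.isB_29.2
          (Or.inr ⟨rfl, by norm_num⟩), by decide⟩
      · refine ⟨known (f := 13) (b := 6) (by norm_num) (by norm_num) (by norm_num)
          (by exact_mod_cast LibNF95.isB_53.1) (by norm_num) (by decide) LibNF95.isB_53.2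
          (Or.inr ⟨rfl, by norm_num⟩), by decide⟩
  · have p3 : Fact (Nat.Prime 3) := ⟨by norm_num⟩
    have p5 : Fact (Nat.Prime 5) := ⟨by norm_num⟩
    have p11 : Fact (Nat.Prime 11) := ⟨by norm_num⟩
    have p17 : Fact (Nat.Prime 17) := ⟨by norm_num⟩
    have p19 : Fact (Nat.Prime 19) := ⟨by norm_num⟩
    have p41 : Fact (Nat.Prime 41) := ⟨by norm_num⟩
    have p67 : Fact (Nat.Prime 67) := ⟨by norm_num⟩
    have p107 : Fact (Nat.Prime 107) := ⟨by norm_num⟩
    have p163 : Fact (Nat.Prime 163) := ⟨by norm_num⟩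
    have p499 : Fact (Nat.Prime 499) := ⟨by norm_num⟩
    refine ⟨?_, ?_, ?_, ?_, ?_, ?_⟩
    · exact known (f := 5) (b := 2) (by norm_num) (by norm_num) (by norm_num)
        (by exact_mod_cast LibNF95.isB_11.1) (by norm_num) (by decide) LibNF95.isB_11.2
        (Or.inl ⟨rfl, by norm_num⟩)
    · exact known (f := 9) (b := 4) (by norm_num) (by norm_num) (by norm_num)
        (by exact_mod_cast LibNF95.isB_19.1) (by norm_num) (by decide) LibNF95.isB_19.2
        (Or.inl ⟨rfl, by norm_num⟩)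
    · exact known (f := 33) (b := 16) (by norm_num) (by norm_num) (by norm_num)
        (by exact_mod_cast LibNF95.isB_67.1) (by norm_num) (by decide) LibNF95.isB_67.2
        (Or.inl ⟨rfl, by norm_num⟩)
    · exact known (f := 53) (b := 25) (by norm_num) (by norm_num) (by norm_num)
        (by exact_mod_cast LibNF95.isB_107.1) (by norm_num) (by decide) LibNF95.isB_107.2
        (Or.inl ⟨rfl, by norm_num⟩)
    · exact known (f := 81) (b := 40) (by norm_num) (by norm_num) (by norm_num)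
        (by exact_mod_cast LibNF95.isB_163.1) (by norm_num) (by decide) LibNF95.isB_163.2
        (Or.inl ⟨rfl, by norm_num⟩)
    · exact known (f := 249) (b := 123) (by norm_num) (by norm_num) (by norm_num)
        (by exact_mod_cast LibNF95.isB_499.1) (by norm_num) (by decide) LibNF95.isB_499.2
        (Or.inl ⟨rfl, by norm_num⟩)

end Pool.Agent.Results.MP_bc5690_co.FullSet
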